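import Mathlib

namespace Pool.Agent.Results.MP_556f19_co.UnionPageLimit

open Filter Topology

/-- Two edges `e`, `f` cross in the vertex order `σ` : they can be written as
`e = {a, b}` with `a` before `b` and `f = {c, d}` with `c` before `d` such that
`a < c < b < d` or `c < a < d < b` in the order. -/
def Crosses {V : Type*} {n : ℕ} (σ : V ≃ Fin n) (e f : Sym2 V) : Prop :=
  ∃ a b c d : V, e = s(a, b) ∧ f = s(c, d) ∧ σ a < σ b ∧ σ c < σ d ∧
    ((σ a < σ c ∧ σ c < σ b ∧ σ b < σ d) ∨ (σ c < σ a ∧ σ a < σ d ∧ σ d < σ b))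

/-- A page: a set of pairwise non-crossing edges. -/
def IsPage {V : Type*} {n : ℕ} (σ : V ≃ Fin n) (P : Set (Sym2 V)) : Prop :=
  ∀ e ∈ P, ∀ f ∈ P, ¬ Crosses σ e f

/-- A union page: an edge set that admits a partition into pages such that every vertex is
incident to edges of at most one of these pages. -/
def IsUnionPage {V : Type*} {n : ℕ} (σ : V ≃ Fin n) (U : Set (Sym2 V)) : Prop :=
  ∃ (m : ℕ) (P : Fin m → Set (Sym2 V)), (⋃ i, P i) = U ∧
    (∀ i j, i ≠ j → Disjoint (P i) (P j)) ∧ (∀ i, IsPage σ (P i)) ∧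
    ∀ (v : V) (i j : Fin m), (∃ e ∈ P i, v ∈ e) → (∃ e ∈ P j, v ∈ e) → i = j

/-- `G` has a `k`-union book embedding: a vertex order together with a partition of the edge
set into `k` union pages. -/
def HasUnionEmbedding {V : Type*} [Fintype V] (G : SimpleGraph V) (k : ℕ) : Prop :=
  ∃ (σ : V ≃ Fin (Fintype.card V)) (U : Fin k → Set (Sym2 V)), (⋃ i, U i) = G.edgeSet ∧
    (∀ i j, i ≠ j → Disjoint (U i) (U j)) ∧ ∀ i, IsUnionPage σ (U i)

/-- The union page number: the least `k` such that a `k`-union book embedding exists. -/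
noncomputable def unionPageNumber {V : Type*} [Fintype V] (G : SimpleGraph V) : ℕ :=
  sInf {k | HasUnionEmbedding G k}

/-! ### The lower bound -/

/-- the weight of an edge whose endpoints are at distance `d` -/
def wt (n d : ℕ) : ℕ := min n (min (3 * d) (3 * (n - d)))

/-- pairwise non-crossing family of ordered pairs -/
def NC (E : Finset (ℕ × ℕ)) : Prop :=
  ∀ e ∈ E, ∀ f ∈ E, ¬ (e.1 < f.1 ∧ f.1 < e.2 ∧ e.2 < f.2)

/-- touched vertices -/
def verts (E : Finset (ℕ × ℕ)) : Finset ℕ := E.image Prod.fst ∪ E.image Prod.snd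

lemma mem_verts {E : Finset (ℕ × ℕ)} {v : ℕ} :
    v ∈ verts E ↔ ∃ e ∈ E, e.1 = v ∨ e.2 = v := by
  unfold verts
  simp only [Finset.mem_union, Finset.mem_image]
  constructor
  · rintro (⟨e, he, h⟩ | ⟨e, he, h⟩)
    · exact ⟨e, he, Or.inl h⟩
    · exact ⟨e, he, Or.inr h⟩
  · rintro ⟨e, he, h | h⟩
    · exact Or.inl ⟨e, he, h⟩
    · exact Or.inr ⟨e, he, h⟩

lemma nc_subset {E F : Finset (ℕ × ℕ)} (h : NC E) (hF : F ⊆ E) : NC F :=
  fun e he f hf => h e (hF he) f (hF hf)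

lemma verts_subset {E F : Finset (ℕ × ℕ)} (hF : F ⊆ E) : verts F ⊆ verts E := by
  intro v hv
  rw [mem_verts] at hv ⊢
  obtain ⟨e, he, h⟩ := hv
  exact ⟨e, hF he, h⟩

lemma exists_split {x y : ℕ} {E : Finset (ℕ × ℕ)} (hne : E.Nonempty)
    (hE : ∀ e ∈ E, x ≤ e.1 ∧ e.1 < e.2 ∧ e.2 ≤ y) (hxy : (x, y) ∉ E) (hnc : NC E) :
    ∃ z ∈ verts E, x < z ∧ z < y ∧ ∀ e ∈ E, e.2 ≤ z ∨ z ≤ e.1 := by
  by_cases h : (E.filter (fun e => e.1 = x)).Nonempty
  · obtain ⟨e, he, hmax⟩ := Finset.exists_max_image _ Prod.snd h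
    rw [Finset.mem_filter] at he
    obtain ⟨heE, hex⟩ := he
    have h1 := hE e heE
    have hey : e.2 ≠ y := by
      intro h2
      apply hxy
      have : e = (x, y) := Prod.ext hex h2
      rw [← this]; exact heE
    refine ⟨e.2, mem_verts.2 ⟨e, heE, Or.inr rfl⟩, by omega, by omega, ?_⟩
    intro f hf
    have h3 := hE f hf
    by_cases hfx : f.1 = x
    · left
      exact hmax f (Finset.mem_filter.2 ⟨hf, hfx⟩)
    · have h4 := hnc e heE f hf
      by_contra hcon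
      push Not at hcon
      apply h4
      omega
  · obtain ⟨e, he, hmin⟩ := Finset.exists_min_image E Prod.fst hne
    have h1 := hE e he
    have hex : e.1 ≠ x := by
      intro h2
      exact h ⟨e, Finset.mem_filter.2 ⟨he, h2⟩⟩
    refine ⟨e.1, mem_verts.2 ⟨e, he, Or.inl rfl⟩, by omega, by omega, ?_⟩
    intro f hf
    right
    exact hmin f hf

lemma nc_weight (n : ℕ) : ∀ (L x y : ℕ), y - x ≤ L → x < y → y < x + n →
    ∀ E : Finset (ℕ × ℕ), (∀ e ∈ E, x ≤ e.1 ∧ e.1 < e.2 ∧ e.2 ≤ y) → NC E →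
    ∑ e ∈ E, wt n (e.2 - e.1) ≤
      n * ((verts E).filter (fun v => x < v ∧ v < y)).card + min (3 * (y - x)) (2 * n) := by
  intro L
  induction L with
  | zero => intro x y h1 h2; omega
  | succ L ih =>
    intro x y hL hxy hyn E hE hnc
    -- remove the base edge
    have hbase : ∑ e ∈ E, wt n (e.2 - e.1) ≤ wt n (y - x) + ∑ e ∈ E.erase (x, y), wt n (e.2 - e.1) := by
      by_cases hm : (x, y) ∈ E
      · rw [← Finset.add_sum_erase E _ hm]
      · rw [Finset.erase_eq_of_notMem hm]; omega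
    set E' := E.erase (x, y) with hE'
    have hsub : E' ⊆ E := Finset.erase_subset _ _
    by_cases hne : E'.Nonempty
    · obtain ⟨z, hzv, hxz, hzy, hsplit⟩ := exists_split hne (fun e he => hE e (hsub he))
        (Finset.notMem_erase _ _) (nc_subset hnc hsub)
      set E1 := E'.filter (fun e => e.2 ≤ z) with hE1
      set E2 := E'.filter (fun e => ¬ e.2 ≤ z) with hE2
      have hsum : ∑ e ∈ E', wt n (e.2 - e.1) =
          ∑ e ∈ E1, wt n (e.2 - e.1) + ∑ e ∈ E2, wt n (e.2 - e.1) :=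
        (Finset.sum_filter_add_sum_filter_not E' _ _).symm
      have h1sub : E1 ⊆ E := (Finset.filter_subset _ _).trans hsub
      have h2sub : E2 ⊆ E := (Finset.filter_subset _ _).trans hsub
      have ih1 := ih x z (by omega) hxz (by omega) E1 (by
        intro e he
        have h3 := hE e (h1sub he)
        have h4 := (Finset.mem_filter.1 he).2
        exact ⟨h3.1, h3.2.1, h4⟩) (nc_subset hnc h1sub)
      have ih2 := ih z y (by omega) hzy (by omega) E2 (by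
        intro e he
        have h3 := hE e (h2sub he)
        have h4 := Finset.mem_filter.1 he
        have h5 := hsplit e h4.1
        refine ⟨?_, h3.2.1, h3.2.2⟩
        rcases h5 with h5 | h5
        · exact absurd h5 h4.2
        · exact h5) (nc_subset hnc h2sub)
      have hcard : ((verts E1).filter (fun v => x < v ∧ v < z)).card +
          ((verts E2).filter (fun v => z < v ∧ v < y)).card + 1 ≤
          ((verts E).filter (fun v => x < v ∧ v < y)).card := by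
        have hd1 : Disjoint ((verts E1).filter (fun v => x < v ∧ v < z))
            ((verts E2).filter (fun v => z < v ∧ v < y)) := by
          rw [Finset.disjoint_left]
          intro v h1 h2
          rw [Finset.mem_filter] at h1 h2
          omega
        have hz : z ∉ ((verts E1).filter (fun v => x < v ∧ v < z)) ∪
            ((verts E2).filter (fun v => z < v ∧ v < y)) := by
          simp
        rw [← Finset.card_union_of_disjoint hd1, ← Finset.card_insert_of_notMem hz]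
        apply Finset.card_le_card
        intro v hv
        rw [Finset.mem_insert, Finset.mem_union, Finset.mem_filter, Finset.mem_filter] at hv
        rw [Finset.mem_filter]
        rcases hv with hv | hv | hv
        · subst hv
          exact ⟨verts_subset hsub hzv, hxz, hzy⟩
        · exact ⟨verts_subset h1sub hv.1, by omega⟩
        · exact ⟨verts_subset h2sub hv.1, by omega⟩
      have hmul := Nat.mul_le_mul_left n hcard
      rw [Nat.mul_add, Nat.mul_add] at hmul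
      have hw : wt n (y - x) + min (3 * (z - x)) (2 * n) + min (3 * (y - z)) (2 * n) ≤
          n + min (3 * (y - x)) (2 * n) := by
        unfold wt; omega
      omega
    · rw [Finset.not_nonempty_iff_eq_empty] at hne
      rw [hne] at hbase
      simp only [Finset.sum_empty, add_zero] at hbase
      have : wt n (y - x) ≤ min (3 * (y - x)) (2 * n) := by
        unfold wt; omega
      omega

/-- total weight of a non-crossing family on positions `< n` -/
lemma nc_total (n : ℕ) (E : Finset (ℕ × ℕ)) (hE : ∀ e ∈ E, e.1 < e.2 ∧ e.2 < n) (hnc : NC E) :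
    ∑ e ∈ E, wt n (e.2 - e.1) ≤ n * (verts E).card := by
  by_cases hne : E.Nonempty
  · obtain ⟨e, he, hmin⟩ := Finset.exists_min_image E Prod.fst hne
    obtain ⟨f, hf, hmax⟩ := Finset.exists_max_image E Prod.snd hne
    have h1 := hE e he
    have h2 := hE f hf
    have h3 := hmin f hf
    have hlt : e.1 < f.2 := by omega
    have key := nc_weight n (f.2 - e.1) e.1 f.2 le_rfl hlt (by omega) E (by
      intro g hg
      exact ⟨hmin g hg, (hE g hg).1, hmax g hg⟩) hnc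
    have hcard : ((verts E).filter (fun v => e.1 < v ∧ v < f.2)).card + 2 ≤ (verts E).card := by
      have hx : e.1 ∉ insert f.2 ((verts E).filter (fun v => e.1 < v ∧ v < f.2)) := by
        simp; omega
      have hy : f.2 ∉ (verts E).filter (fun v => e.1 < v ∧ v < f.2) := by
        simp
      have h5 := Finset.card_insert_of_notMem hx
      have h6 := Finset.card_insert_of_notMem hy
      have h7 : (insert e.1 (insert f.2 ((verts E).filter (fun v => e.1 < v ∧ v < f.2)))).card ≤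
          (verts E).card := by
        apply Finset.card_le_card
        intro v hv
        rw [Finset.mem_insert, Finset.mem_insert, Finset.mem_filter] at hv
        rcases hv with hv | hv | hv
        · subst hv; exact mem_verts.2 ⟨e, he, Or.inl rfl⟩
        · subst hv; exact mem_verts.2 ⟨f, hf, Or.inr rfl⟩
        · exact hv.1
      omega
    have hmul := Nat.mul_le_mul_left n hcard
    rw [Nat.mul_add] at hmul
    omega
  · rw [Finset.not_nonempty_iff_eq_empty] at hne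
    rw [hne]; simp


lemma sum_biUnion_le_nat {ι α : Type*} [DecidableEq α] (f : α → ℕ) (s : Finset ι)
    (t : ι → Finset α) : ∑ x ∈ s.biUnion t, f x ≤ ∑ i ∈ s, ∑ x ∈ t i, f x := by
  classical
  induction s using Finset.induction_on with
  | empty => simp
  | insert a s ha ih =>
    rw [Finset.biUnion_insert, Finset.sum_insert ha]
    have := Finset.sum_union_inter (s₁ := t a) (s₂ := s.biUnion t) (f := f)
    omega

/-- all pairs `x < y < n` -/
def allPairs (n : ℕ) : Finset (ℕ × ℕ) :=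
  (Finset.range n ×ˢ Finset.range n).filter (fun e => e.1 < e.2)

lemma sum_allPairs (n : ℕ) (g : ℕ → ℕ) :
    ∑ e ∈ allPairs n, g (e.2 - e.1) = ∑ d ∈ Finset.range n, (n - d) * (if d = 0 then 0 else g d) := by
  induction n with
  | zero => simp [allPairs]
  | succ n ih =>
    have h1 : allPairs (n + 1) = allPairs n ∪ (Finset.range n).image (fun x => (x, n)) := by
      ext ⟨x, y⟩
      simp only [allPairs, Finset.mem_filter, Finset.mem_product, Finset.mem_range,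
        Finset.mem_union, Finset.mem_image, Prod.mk.injEq]
      constructor
      · rintro ⟨⟨hx, hy⟩, hxy⟩
        by_cases hyn : y < n
        · left; omega
        · right; exact ⟨x, by omega, rfl, by omega⟩
      · rintro (⟨⟨hx, hy⟩, hxy⟩ | ⟨z, hz, rfl, rfl⟩)
        · omega
        · omega
    have hdisj : Disjoint (allPairs n) ((Finset.range n).image (fun x => (x, n))) := by
      rw [Finset.disjoint_left]
      rintro ⟨x, y⟩ h2 h3
      simp only [allPairs, Finset.mem_filter, Finset.mem_product, Finset.mem_range,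
        Finset.mem_image, Prod.mk.injEq] at h2 h3
      obtain ⟨z, hz, rfl, rfl⟩ := h3
      omega
    rw [h1, Finset.sum_union hdisj, ih, Finset.sum_image (by
      intro a _ b _ hab
      simpa using hab)]
    have h2 : ∑ x ∈ Finset.range n, g (n - x) =
        ∑ d ∈ Finset.range (n + 1), (if d = 0 then 0 else g d) := by
      rw [Finset.sum_range_succ']
      simp only [if_true, add_zero]
      rw [← Finset.sum_range_reflect]
      apply Finset.sum_congr rfl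
      intro x hx
      rw [Finset.mem_range] at hx
      have : n - 1 - x + 1 ≠ 0 := by omega
      rw [if_neg (by omega)]
      congr 1
      omega
    simp only []
    rw [h2, Finset.sum_range_succ (fun d => (n + 1 - d) * (if d = 0 then 0 else g d)),
      Finset.sum_range_succ (fun d => (if d = 0 then 0 else g d)), ← add_assoc,
      ← Finset.sum_add_distrib]
    have h3 : (n + 1 - n) = 1 := by omega
    rw [h3, one_mul]
    congr 1
    apply Finset.sum_congr rfl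
    intro d hd
    rw [Finset.mem_range] at hd
    have : n + 1 - d = (n - d) + 1 := by omega
    rw [this, Nat.add_mul, one_mul]

lemma H1 (n q : ℕ) (hq : 3 * q ≤ n) :
    2 * ∑ d ∈ Finset.range (q + 1), min (3 * d) n = 3 * q * (q + 1) := by
  induction q with
  | zero => simp
  | succ q ih =>
    rw [Finset.sum_range_succ, Nat.mul_add, ih (by omega), min_eq_left hq]
    ring

lemma H2 (n q m : ℕ) (hq : n ≤ 3 * (q + 1)) :
    ∑ d ∈ Finset.range (q + 1 + m), min (3 * d) n =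
      ∑ d ∈ Finset.range (q + 1), min (3 * d) n + n * m := by
  induction m with
  | zero => simp
  | succ m ih =>
    rw [← add_assoc, Finset.sum_range_succ, ih, min_eq_right (by omega)]
    ring

lemma total_weight (n : ℕ) :
    n ^ 3 ≤ 3 * ∑ e ∈ allPairs n, wt n (e.2 - e.1) + n := by
  rw [sum_allPairs n (wt n)]
  have e0 : ∀ d ∈ Finset.range n, (n - d) * (if d = 0 then 0 else wt n d) = (n - d) * wt n d := by
    intro d _
    split_ifs with h
    · subst h; simp [wt]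
    · rfl
  rw [Finset.sum_congr rfl e0]
  set S := ∑ d ∈ Finset.range n, (n - d) * wt n d with hS
  set H := ∑ d ∈ Finset.range (n + 1), min (3 * d) n with hH
  have hH6 : 6 * H + 2 ≥ 5 * n ^ 2 + 3 * n := by
    have h1 := H1 n (n / 3) (by omega)
    have h2 := H2 n (n / 3) (n - n / 3) (by omega)
    have h3 : n / 3 + 1 + (n - n / 3) = n + 1 := by omega
    rw [h3] at h2
    rw [hH, h2]
    obtain ⟨q, r, hr, hn⟩ : ∃ q r, r < 3 ∧ n = 3 * q + r := ⟨n / 3, n % 3, by omega, by omega⟩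
    have hq : n / 3 = q := by omega
    rw [hq] at h1 ⊢
    have h4 : n - q = 2 * q + r := by omega
    rw [h4]
    generalize (∑ d ∈ Finset.range (q + 1), min (3 * d) n) = A at h1
    subst hn
    interval_cases r <;> nlinarith
  -- the sum of all weights over a full period
  have hG : ∑ d ∈ Finset.range (n + 1), wt n d + n * (n + 1) = 2 * H := by
    have h1 : ∑ d ∈ Finset.range (n + 1), (wt n d + n) =
        ∑ d ∈ Finset.range (n + 1), (min (3 * d) n + min (3 * (n - d)) n) := by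
      apply Finset.sum_congr rfl
      intro d hd
      rw [Finset.mem_range] at hd
      unfold wt
      omega
    rw [Finset.sum_add_distrib, Finset.sum_add_distrib, Finset.sum_const, Finset.card_range,
      smul_eq_mul] at h1
    have h2 : ∑ d ∈ Finset.range (n + 1), min (3 * (n - d)) n = H := by
      rw [hH, ← Finset.sum_range_reflect]
      apply Finset.sum_congr rfl
      intro d hd
      rw [Finset.mem_range] at hd
      congr 2
      omega
    rw [h2] at h1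
    nlinarith
  have hS1 : S = ∑ d ∈ Finset.range (n + 1), (n - d) * wt n d := by
    rw [Finset.sum_range_succ]; simp [hS]
  have hS2 : S = ∑ d ∈ Finset.range (n + 1), d * wt n d := by
    rw [hS1, ← Finset.sum_range_reflect]
    apply Finset.sum_congr rfl
    intro d hd
    rw [Finset.mem_range] at hd
    have h1 : n - (n + 1 - 1 - d) = d := by omega
    have h2 : wt n (n + 1 - 1 - d) = wt n d := by unfold wt; omega
    rw [h1, h2]
  have hS3 : 2 * S = n * ∑ d ∈ Finset.range (n + 1), wt n d := by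
    have : S + S = ∑ d ∈ Finset.range (n + 1), ((n - d) * wt n d + d * wt n d) := by
      rw [Finset.sum_add_distrib, ← hS1, ← hS2]
    rw [two_mul, this, Finset.mul_sum]
    apply Finset.sum_congr rfl
    intro d hd
    rw [Finset.mem_range] at hd
    rw [← Nat.add_mul]
    congr 1
    omega
  set G := ∑ d ∈ Finset.range (n + 1), wt n d with hGdef
  -- 3 S = 3 n G / 2, G = 2 H - n (n+1)
  have h5 : 6 * (G + n * (n + 1)) + 4 ≥ 2 * (5 * n ^ 2 + 3 * n) := by
    rw [hG]; omega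
  have h6 : 6 * G + 4 ≥ 4 * n ^ 2 := by nlinarith
  nlinarith [Nat.mul_le_mul_left n h6]

section Lower

open Classical

variable {V : Type*} [Fintype V] {n : ℕ}

/-- positions of the edges in a set of edges -/
noncomputable def pairsOf (σ : V ≃ Fin n) (S : Set (Sym2 V)) : Finset (ℕ × ℕ) :=
  ((Finset.univ : Finset (V × V)).filter (fun p => σ p.1 < σ p.2 ∧ s(p.1, p.2) ∈ S)).image
    (fun p => ((σ p.1 : ℕ), (σ p.2 : ℕ)))

lemma mem_pairsOf {σ : V ≃ Fin n} {S : Set (Sym2 V)} {e : ℕ × ℕ} :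
    e ∈ pairsOf σ S ↔ ∃ u v : V, (σ u : ℕ) = e.1 ∧ (σ v : ℕ) = e.2 ∧ σ u < σ v ∧ s(u, v) ∈ S := by
  unfold pairsOf
  simp only [Finset.mem_image, Finset.mem_filter, Finset.mem_univ, true_and, Prod.exists]
  constructor
  · rintro ⟨u, v, ⟨h1, h2⟩, rfl⟩
    exact ⟨u, v, rfl, rfl, h1, h2⟩
  · rintro ⟨u, v, h1, h2, h3, h4⟩
    exact ⟨u, v, ⟨h3, h4⟩, Prod.ext h1 h2⟩

lemma pairsOf_lt {σ : V ≃ Fin n} {S : Set (Sym2 V)} {e : ℕ × ℕ} (he : e ∈ pairsOf σ S) :
    e.1 < e.2 ∧ e.2 < n := by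
  obtain ⟨u, v, h1, h2, h3, h4⟩ := mem_pairsOf.1 he
  rw [← h1, ← h2]
  exact ⟨h3, (σ v).2⟩

lemma nc_pairsOf {σ : V ≃ Fin n} {P : Set (Sym2 V)} (hP : IsPage σ P) : NC (pairsOf σ P) := by
  intro e he f hf ⟨h1, h2, h3⟩
  obtain ⟨u, v, hu, hv, huv, hmem⟩ := mem_pairsOf.1 he
  obtain ⟨u', v', hu', hv', huv', hmem'⟩ := mem_pairsOf.1 hf
  apply hP _ hmem _ hmem'
  refine ⟨u, v, u', v', rfl, rfl, huv, huv', Or.inl ⟨?_, ?_, ?_⟩⟩
  · rw [Fin.lt_def, hu, hu']; exact h1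
  · rw [Fin.lt_def, hu', hv]; exact h2
  · rw [Fin.lt_def, hv, hv']; exact h3

lemma verts_pairsOf {σ : V ≃ Fin n} {P : Set (Sym2 V)} {x : ℕ} (hx : x ∈ verts (pairsOf σ P)) :
    ∃ v : V, (σ v : ℕ) = x ∧ ∃ e ∈ P, v ∈ e := by
  obtain ⟨e, he, h⟩ := mem_verts.1 hx
  obtain ⟨u, v, hu, hv, huv, hmem⟩ := mem_pairsOf.1 he
  rcases h with h | h
  · exact ⟨u, by rw [hu, h], _, hmem, Sym2.mem_mk_left _ _⟩
  · exact ⟨v, by rw [hv, h], _, hmem, Sym2.mem_mk_right _ _⟩

/-- weight of a union page -/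
lemma unionPage_weight {σ : V ≃ Fin n} {U : Set (Sym2 V)} (hU : IsUnionPage σ U) :
    ∑ e ∈ pairsOf σ U, wt n (e.2 - e.1) ≤ n * n := by
  obtain ⟨m, P, hPU, -, hP, hv⟩ := hU
  have h1 : pairsOf σ U ⊆ Finset.univ.biUnion (fun i => pairsOf σ (P i)) := by
    intro e he
    obtain ⟨u, v, hu, hv, huv, hmem⟩ := mem_pairsOf.1 he
    rw [← hPU, Set.mem_iUnion] at hmem
    obtain ⟨i, hi⟩ := hmem
    exact Finset.mem_biUnion.2 ⟨i, Finset.mem_univ _, mem_pairsOf.2 ⟨u, v, hu, hv, huv, hi⟩⟩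
  calc ∑ e ∈ pairsOf σ U, wt n (e.2 - e.1)
      ≤ ∑ e ∈ Finset.univ.biUnion (fun i => pairsOf σ (P i)), wt n (e.2 - e.1) :=
        Finset.sum_le_sum_of_subset h1
    _ ≤ ∑ i : Fin m, ∑ e ∈ pairsOf σ (P i), wt n (e.2 - e.1) :=
        sum_biUnion_le_nat (fun e : ℕ × ℕ => wt n (e.2 - e.1)) Finset.univ
          (fun i => pairsOf σ (P i))
    _ ≤ ∑ i : Fin m, n * (verts (pairsOf σ (P i))).card := by
        apply Finset.sum_le_sum
        intro i _
        exact nc_total n _ (fun e he => pairsOf_lt he) (nc_pairsOf (hP i))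
    _ = n * ∑ i : Fin m, (verts (pairsOf σ (P i))).card := by rw [Finset.mul_sum]
    _ ≤ n * n := by
        apply Nat.mul_le_mul_left
        rw [← Finset.card_biUnion]
        · calc _ ≤ (Finset.range n).card := by
                apply Finset.card_le_card
                intro x hx
                rw [Finset.mem_biUnion] at hx
                obtain ⟨i, -, hi⟩ := hx
                obtain ⟨v, hv1, -⟩ := verts_pairsOf hi
                rw [Finset.mem_range, ← hv1]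
                exact (σ v).2
            _ = n := Finset.card_range n
        · intro i _ j _ hij
          rw [Function.onFun, Finset.disjoint_left]
          intro x hxi hxj
          obtain ⟨v, hv1, hv2⟩ := verts_pairsOf hxi
          obtain ⟨v', hv1', hv2'⟩ := verts_pairsOf hxj
          have : v = v' := by
            apply σ.injective
            apply Fin.ext
            rw [hv1, hv1']
          subst this
          exact hij (hv v i j hv2 hv2')

end Lower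

lemma lower_aux {n N k : ℕ} (hN : N = n) (σ : Fin n ≃ Fin N) (U : Fin k → Set (Sym2 (Fin n)))
    (hU : (⋃ i, U i) = (⊤ : SimpleGraph (Fin n)).edgeSet)
    (hpage : ∀ i, IsUnionPage σ (U i)) : n ^ 3 ≤ 3 * (k * (n * n)) + n := by
  classical
  subst hN
  have h1 : allPairs N ⊆ Finset.univ.biUnion (fun i => pairsOf σ (U i)) := by
    rintro ⟨x, y⟩ he
    simp only [allPairs, Finset.mem_filter, Finset.mem_product, Finset.mem_range] at he
    obtain ⟨⟨hx, hy⟩, hxy⟩ := he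
    set u := σ.symm ⟨x, hx⟩ with hu
    set v := σ.symm ⟨y, hy⟩ with hv
    have hsu : σ u = ⟨x, hx⟩ := by rw [hu]; simp
    have hsv : σ v = ⟨y, hy⟩ := by rw [hv]; simp
    have hne : u ≠ v := by
      intro h
      rw [h, hsv] at hsu
      simp at hsu
      omega
    have hmem : s(u, v) ∈ (⊤ : SimpleGraph (Fin N)).edgeSet := by
      rw [SimpleGraph.mem_edgeSet]; exact hne
    rw [← hU, Set.mem_iUnion] at hmem
    obtain ⟨i, hi⟩ := hmem
    refine Finset.mem_biUnion.2 ⟨i, Finset.mem_univ _, mem_pairsOf.2 ⟨u, v, ?_, ?_, ?_, hi⟩⟩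
    · rw [hsu]
    · rw [hsv]
    · rw [hsu, hsv]; exact hxy
  have h2 : ∑ e ∈ allPairs N, wt N (e.2 - e.1) ≤ k * (N * N) := by
    calc ∑ e ∈ allPairs N, wt N (e.2 - e.1)
        ≤ ∑ e ∈ Finset.univ.biUnion (fun i => pairsOf σ (U i)), wt N (e.2 - e.1) :=
          Finset.sum_le_sum_of_subset h1
      _ ≤ ∑ i : Fin k, ∑ e ∈ pairsOf σ (U i), wt N (e.2 - e.1) :=
          sum_biUnion_le_nat (fun e : ℕ × ℕ => wt N (e.2 - e.1)) Finset.univ
            (fun i => pairsOf σ (U i))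
      _ ≤ ∑ i : Fin k, N * N := by
          apply Finset.sum_le_sum
          intro i _
          exact unionPage_weight (hpage i)
      _ = k * (N * N) := by simp
  have h3 := total_weight N
  omega

/-- the lower bound -/
lemma lower {n k : ℕ} (h : HasUnionEmbedding (⊤ : SimpleGraph (Fin n)) k) :
    n ^ 3 ≤ 3 * (k * (n * n)) + n := by
  obtain ⟨σ, U, hU, -, hpage⟩ := h
  exact lower_aux (Fintype.card_fin n) σ U hU hpage

/-! ### The upper bound -/

/-- `U` (restricted to pairs `x < y < n`) is a union page, with component function `comp` -/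
def UP (n : ℕ) (U : ℕ → ℕ → Prop) : Prop :=
  ∃ comp : ℕ → ℕ, (∀ x y, x < y → y < n → U x y → comp x = comp y) ∧
    ∀ x y x' y', x < y → y < n → x' < y' → y' < n → U x y → U x' y' → comp x = comp x' →
      ¬ (x < x' ∧ x' < y ∧ y < y')

/-- all pairs `x < y < n` are covered by `k` union pages -/
def Cov (n k : ℕ) : Prop :=
  ∃ U : Fin k → ℕ → ℕ → Prop, (∀ i, UP n (U i)) ∧ ∀ x y, x < y → y < n → ∃ i, U i x y

lemma cov_of_fintype {n : ℕ} {ι : Type} [Fintype ι] (U : ι → ℕ → ℕ → Prop)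
    (h1 : ∀ i, UP n (U i)) (h2 : ∀ x y, x < y → y < n → ∃ i, U i x y) :
    Cov n (Fintype.card ι) := by
  let e := Fintype.equivFin ι
  refine ⟨fun i => U (e.symm i), fun i => h1 _, fun x y hxy hy => ?_⟩
  obtain ⟨i, hi⟩ := h2 x y hxy hy
  exact ⟨e i, by simpa using hi⟩

lemma cov_mono {m n k : ℕ} (h : Cov n k) (hm : m ≤ n) : Cov m k := by
  obtain ⟨U, h1, h2⟩ := h
  refine ⟨U, fun i => ?_, fun x y hxy hy => h2 x y hxy (by omega)⟩
  obtain ⟨comp, h3, h4⟩ := h1 i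
  exact ⟨comp, fun x y hxy hy => h3 x y hxy (by omega),
    fun x y x' y' a b c d => h4 x y x' y' a (by omega) c (by omega)⟩

lemma cov_self (n : ℕ) : Cov n n := by
  refine ⟨fun i x _ => x = i, fun i => ⟨fun _ => 0, fun _ _ _ _ _ => rfl, ?_⟩, ?_⟩
  · intro x y x' y' _ _ _ _ h1 h2 _ h3
    omega
  · intro x y hxy hy
    exact ⟨⟨x, by omega⟩, rfl⟩

/-- rotation by `T` in the cyclic order of `0, …, N-1` -/
def rot (N T a : ℕ) : ℕ := if a + T < N then a + T else a + T - N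

lemma rot_lt {N T a : ℕ} (hT : T < N) (ha : a < N) : rot N T a < N := by
  unfold rot; split_ifs <;> omega

/-- the edges of a fan: apex `0`, all spokes, and the path `p₁ p₂ … p₅` -/
def FanE (p1 p2 p3 p4 p5 u v : ℕ) : Prop :=
  (u = 0 ∧ (v = p1 ∨ v = p2 ∨ v = p3 ∨ v = p4 ∨ v = p5)) ∨
    (u = p1 ∧ v = p2) ∨ (u = p2 ∧ v = p3) ∨ (u = p3 ∧ v = p4) ∨ (u = p4 ∧ v = p5)

/-- the six positions are increasing and lie in different residue classes modulo `6` -/
def Good (N p1 p2 p3 p4 p5 : ℕ) : Prop :=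
  0 < p1 ∧ p1 < p2 ∧ p2 < p3 ∧ p3 < p4 ∧ p4 < p5 ∧ p5 < N ∧
    p1 % 6 ≠ 0 ∧ p2 % 6 ≠ 0 ∧ p3 % 6 ≠ 0 ∧ p4 % 6 ≠ 0 ∧ p5 % 6 ≠ 0 ∧
    p1 % 6 ≠ p2 % 6 ∧ p1 % 6 ≠ p3 % 6 ∧ p1 % 6 ≠ p4 % 6 ∧ p1 % 6 ≠ p5 % 6 ∧
    p2 % 6 ≠ p3 % 6 ∧ p2 % 6 ≠ p4 % 6 ∧ p2 % 6 ≠ p5 % 6 ∧
    p3 % 6 ≠ p4 % 6 ∧ p3 % 6 ≠ p5 % 6 ∧ p4 % 6 ≠ p5 % 6

/-- vertex set of the fan -/
def FanV (p1 p2 p3 p4 p5 v : ℕ) : Prop :=
  v = 0 ∨ v = p1 ∨ v = p2 ∨ v = p3 ∨ v = p4 ∨ v = p5

/-- the union page of all rotations (by amounts congruent to `s` modulo `6`) of a fan -/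
def FanPage (N p1 p2 p3 p4 p5 s x y : ℕ) : Prop :=
  ∃ T, T < N ∧ T % 6 = s ∧ ∃ u v, FanE p1 p2 p3 p4 p5 u v ∧
    ((rot N T u = x ∧ rot N T v = y) ∨ (rot N T u = y ∧ rot N T v = x))

lemma fanE_verts {N p1 p2 p3 p4 p5 u v : ℕ} (hg : Good N p1 p2 p3 p4 p5)
    (h : FanE p1 p2 p3 p4 p5 u v) :
    FanV p1 p2 p3 p4 p5 u ∧ FanV p1 p2 p3 p4 p5 v ∧ u < v ∧ v < N := by
  unfold Good at hg
  unfold FanE at h
  unfold FanV
  omega

lemma fanV_unique {M p1 p2 p3 p4 p5 u v T T' : ℕ} (hg : Good (6 * M) p1 p2 p3 p4 p5)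
    (hu : FanV p1 p2 p3 p4 p5 u) (hv : FanV p1 p2 p3 p4 p5 v) (hT : T < 6 * M) (hT' : T' < 6 * M)
    (hTT : T % 6 = T' % 6) (h : rot (6 * M) T u = rot (6 * M) T' v) : u = v ∧ T = T' := by
  have h6 : u % 6 = v % 6 := by
    unfold rot at h
    split_ifs at h <;> omega
  have huv : u = v := by
    unfold Good at hg
    unfold FanV at hu hv
    rcases hu with rfl | rfl | rfl | rfl | rfl | rfl <;>
    rcases hv with rfl | rfl | rfl | rfl | rfl | rfl <;> omega
  subst huv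
  refine ⟨rfl, ?_⟩
  have hulim : u < 6 * M := by
    unfold Good at hg
    unfold FanV at hu
    omega
  unfold rot at h
  split_ifs at h <;> omega

/-- crossing after a rotation comes from a crossing before it -/
lemma rot_cross {N T a b c d : ℕ} (hT : T < N) (ha : a < N) (hb : b < N) (hc : c < N)
    (hd : d < N) (h1 : rot N T a < rot N T c) (h2 : rot N T c < rot N T b)
    (h3 : rot N T b < rot N T d) :
    (a < c ∧ c < b ∧ b < d) ∨ (c < b ∧ b < d ∧ d < a) ∨ (b < d ∧ d < a ∧ a < c) ∨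
      (d < a ∧ a < c ∧ c < b) := by
  unfold rot at h1 h2 h3
  split_ifs at h1 h2 h3 <;> omega

lemma fan_nc {N p1 p2 p3 p4 p5 u v u' v' : ℕ} (hg : Good N p1 p2 p3 p4 p5)
    (h : FanE p1 p2 p3 p4 p5 u v) (h' : FanE p1 p2 p3 p4 p5 u' v') :
    ¬ (u < u' ∧ u' < v ∧ v < v') := by
  unfold Good at hg
  unfold FanE at h h'
  omega

lemma fanPage_up {M p1 p2 p3 p4 p5 s : ℕ} (hg : Good (6 * M) p1 p2 p3 p4 p5) :
    UP (6 * M) (FanPage (6 * M) p1 p2 p3 p4 p5 s) := by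
  classical
  -- component of a vertex
  set Q : ℕ → ℕ → Prop := fun x T => T < 6 * M ∧ T % 6 = s ∧
    ∃ u, FanV p1 p2 p3 p4 p5 u ∧ rot (6 * M) T u = x with hQ
  have huniq : ∀ x T T', Q x T → Q x T' → T = T' := by
    rintro x T T' ⟨h1, h2, u, hu, hu'⟩ ⟨h1', h2', v, hv, hv'⟩
    exact (fanV_unique hg hu hv h1 h1' (by omega) (by rw [hu', hv'])).2
  set comp : ℕ → ℕ := fun x => if h : ∃ T, Q x T then Classical.choose h else 0 with hcomp
  have hcomp1 : ∀ x T, Q x T → comp x = T := by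
    intro x T h
    have hex : ∃ T, Q x T := ⟨T, h⟩
    rw [hcomp]
    simp only []
    rw [dif_pos hex]
    exact huniq x _ _ (Classical.choose_spec hex) h
  refine ⟨comp, ?_, ?_⟩
  · rintro x y hxy hy ⟨T, hT, hs, u, v, he, h⟩
    obtain ⟨hu, hv, huv, hvN⟩ := fanE_verts hg he
    rcases h with ⟨h1, h2⟩ | ⟨h1, h2⟩
    · rw [hcomp1 x T ⟨hT, hs, u, hu, h1⟩, hcomp1 y T ⟨hT, hs, v, hv, h2⟩]
    · rw [hcomp1 x T ⟨hT, hs, v, hv, h2⟩, hcomp1 y T ⟨hT, hs, u, hu, h1⟩]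
  · rintro x y x' y' hxy hy hxy' hy' ⟨T, hT, hs, u, v, he, h⟩ ⟨T', hT', hs', u', v', he', h'⟩
      hcc ⟨c1, c2, c3⟩
    obtain ⟨hu, hv, huv, hvN⟩ := fanE_verts hg he
    obtain ⟨hu', hv', huv', hvN'⟩ := fanE_verts hg he'
    have hx : comp x = T := by
      rcases h with ⟨h1, h2⟩ | ⟨h1, h2⟩
      · exact hcomp1 x T ⟨hT, hs, u, hu, h1⟩
      · exact hcomp1 x T ⟨hT, hs, v, hv, h2⟩
    have hx' : comp x' = T' := by
      rcases h' with ⟨h1, h2⟩ | ⟨h1, h2⟩
      · exact hcomp1 x' T' ⟨hT', hs', u', hu', h1⟩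
      · exact hcomp1 x' T' ⟨hT', hs', v', hv', h2⟩
    have hTT : T = T' := by rw [← hx, ← hx', hcc]
    subst hTT
    have n1 := fan_nc hg he he'
    have n2 := fan_nc hg he' he
    rcases h with ⟨h1, h2⟩ | ⟨h1, h2⟩ <;> rcases h' with ⟨h1', h2'⟩ | ⟨h1', h2'⟩
    · have := rot_cross (a := u) (b := v) (c := u') (d := v') hT (by omega) (by omega) (by omega)
        (by omega) (by omega) (by omega) (by omega)
      omega
    · have := rot_cross (a := u) (b := v) (c := v') (d := u') hT (by omega) (by omega) (by omega)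
        (by omega) (by omega) (by omega) (by omega)
      omega
    · have := rot_cross (a := v) (b := u) (c := u') (d := v') hT (by omega) (by omega) (by omega)
        (by omega) (by omega) (by omega) (by omega)
      omega
    · have := rot_cross (a := v) (b := u) (c := v') (d := u') hT (by omega) (by omega) (by omega)
        (by omega) (by omega) (by omega) (by omega)
      omega

/-- a fan page covers all pairs whose cyclic difference occurs in the fan -/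
lemma fanPage_cover {N p1 p2 p3 p4 p5 u v x y : ℕ} (hg : Good N p1 p2 p3 p4 p5)
    (he : FanE p1 p2 p3 p4 p5 u v) (hxy : x < y) (hy : y < N)
    (hd : y - x = v - u ∨ N - (y - x) = v - u) :
    ∃ s, s < 6 ∧ FanPage N p1 p2 p3 p4 p5 s x y := by
  obtain ⟨hu, hv, huv, hvN⟩ := fanE_verts hg he
  rcases hd with hd | hd
  · by_cases hxu : u ≤ x
    · refine ⟨(x - u) % 6, Nat.mod_lt _ (by norm_num), x - u, by omega, rfl, u, v, he,
        Or.inl ⟨?_, ?_⟩⟩
      · unfold rot; split_ifs <;> omega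
      · unfold rot; split_ifs <;> omega
    · refine ⟨(x + N - u) % 6, Nat.mod_lt _ (by norm_num), x + N - u, by omega, rfl, u, v, he,
        Or.inl ⟨?_, ?_⟩⟩
      · unfold rot; split_ifs <;> omega
      · unfold rot; split_ifs <;> omega
  · by_cases hxu : u ≤ y
    · refine ⟨(y - u) % 6, Nat.mod_lt _ (by norm_num), y - u, by omega, rfl, u, v, he,
        Or.inr ⟨?_, ?_⟩⟩
      · unfold rot; split_ifs <;> omega
      · unfold rot; split_ifs <;> omega
    · refine ⟨(y + N - u) % 6, Nat.mod_lt _ (by norm_num), y + N - u, by omega, rfl, u, v, he,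
        Or.inr ⟨?_, ?_⟩⟩
      · unfold rot; split_ifs <;> omega
      · unfold rot; split_ifs <;> omega

/-- pairs in the same residue class modulo `6` -/
lemma mult_up {M : ℕ} {U : ℕ → ℕ → Prop} (h : UP M U) :
    UP (6 * M) (fun x y => x % 6 = y % 6 ∧ U (x / 6) (y / 6)) := by
  obtain ⟨comp, h1, h2⟩ := h
  refine ⟨fun x => 6 * comp (x / 6) + x % 6, ?_, ?_⟩
  · rintro x y hxy hy ⟨h3, h4⟩
    have := h1 (x / 6) (y / 6) (by omega) (by omega) h4
    simp only []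
    rw [this, h3]
  · rintro x y x' y' hxy hy hxy' hy' ⟨h3, h4⟩ ⟨h3', h4'⟩ hc hcr
    simp only [] at hc
    have h5 : x % 6 = x' % 6 := by omega
    have h6 : comp (x / 6) = comp (x' / 6) := by omega
    exact h2 (x / 6) (y / 6) (x' / 6) (y' / 6) (by omega) (by omega) (by omega) (by omega)
      h4 h4' h6 (by omega)

/-- position `p1` of the fan number `f` with parameter `t` -/
def p1 (f K t : ℕ) : ℕ :=
  match f with
  | 0 => 18 * K + 1 + 12 * t
  | 1 => 18 * K + 7 + 12 * t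
  | 2 => 18 * K - 9 - 6 * t
  | 3 => 18 * K + 3 + 12 * t
  | 4 => 18 * K + 5 + 12 * t
  | _ => 1

/-- position `p2` of the fan number `f` with parameter `t` -/
def p2 (f K t : ℕ) : ℕ :=
  match f with
  | 0 => 36 * K + 6 * t - 4
  | 1 => 36 * K + 3 + 6 * t
  | 2 => 36 * K + 6 * t - 7
  | 3 => 36 * K + 6 * t - 5
  | 4 => 36 * K + 6 * t - 2
  | _ => 3

/-- position `p3` of the fan number `f` with parameter `t` -/
def p3 (f K t : ℕ) : ℕ :=
  match f with
  | 0 => 48 * K + 15 - 6 * t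
  | 1 => 48 * K + 16 - 6 * t
  | 2 => 48 * K + 14 - 6 * t
  | 3 => 48 * K + 11 - 6 * t
  | 4 => 48 * K + 13 - 6 * t
  | _ => 4

/-- position `p4` of the fan number `f` with parameter `t` -/
def p4 (f K t : ℕ) : ℕ :=
  match f with
  | 0 => 48 * K + 17 + 6 * t
  | 1 => 48 * K + 26 + 6 * t
  | 2 => 48 * K + 19 + 6 * t
  | 3 => 48 * K + 22 + 6 * t
  | 4 => 48 * K + 21 + 6 * t
  | _ => 5

/-- position `p5` of the fan number `f` with parameter `t` -/
def p5 (f K t : ℕ) : ℕ :=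
  match f with
  | 0 => 78 * K + 16 - 6 * t
  | 1 => 78 * K + 11 - 6 * t
  | 2 => 78 * K + 16 + 12 * t
  | 3 => 78 * K + 14 - 6 * t
  | 4 => 78 * K + 14 + 12 * t
  | _ => 48 * K + 20

lemma cover1 (K d : ℕ) (hK : 2 ≤ K) (hd0 : 0 < d) (hd : d ≤ 54 * K) (h6 : d % 6 = 1)
    (A : ∀ f t, f < 5 → t < K + 2 → ∀ u v, FanE (p1 f K t) (p2 f K t) (p3 f K t) (p4 f K t) (p5 f K t) u v →
      d ≠ v - u ∧ 108 * K - d ≠ v - u) : d = 48 * K + 20 := by
  have q0 : ∀ t, t < K + 2 → d ≠ 12 * K + 19 - 12 * t := fun t ht hh =>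
    (A 0 t (by norm_num) ht (36 * K + 6 * t - 4) (48 * K + 15 - 6 * t) (Or.inr (Or.inr (Or.inl ⟨rfl, rfl⟩)))).1 (by omega)
  have q1 : ∀ t, t < K + 2 → d ≠ 12 * K + 13 - 12 * t := fun t ht hh =>
    (A 1 t (by norm_num) ht (36 * K + 3 + 6 * t) (48 * K + 16 - 6 * t) (Or.inr (Or.inr (Or.inl ⟨rfl, rfl⟩)))).1 (by omega)
  have q2 : ∀ t, t < K + 2 → d ≠ 18 * K - 5 - 6 * t := fun t ht hh =>
    (A 0 t (by norm_num) ht (18 * K + 1 + 12 * t) (36 * K + 6 * t - 4) (Or.inr (Or.inl ⟨rfl, rfl⟩))).1 (by omega)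
  have q3 : ∀ t, t < K + 2 → d ≠ 18 * K + 1 + 12 * t := fun t ht hh =>
    (A 0 t (by norm_num) ht 0 (18 * K + 1 + 12 * t) (Or.inl ⟨rfl, Or.inl rfl⟩)).1 (by omega)
  have q4 : ∀ t, t < K + 2 → d ≠ 18 * K + 7 + 12 * t := fun t ht hh =>
    (A 1 t (by norm_num) ht 0 (18 * K + 7 + 12 * t) (Or.inl ⟨rfl, Or.inl rfl⟩)).1 (by omega)
  have q5 : ∀ t, t < K + 2 → d ≠ 30 * K + 6 * t - 11 := fun t ht hh =>
    (A 1 t (by norm_num) ht 0 (78 * K + 11 - 6 * t) (Or.inl ⟨rfl, Or.inr (Or.inr (Or.inr (Or.inr rfl)))⟩)).2 (by omega)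
  have q6 : ∀ t, t < K + 2 → d ≠ 36 * K + 6 * t - 5 := fun t ht hh =>
    (A 3 t (by norm_num) ht 0 (36 * K + 6 * t - 5) (Or.inl ⟨rfl, Or.inr (Or.inl rfl)⟩)).1 (by omega)
  have q7 : ∀ t, t < K + 2 → d ≠ 48 * K + 13 - 6 * t := fun t ht hh =>
    (A 4 t (by norm_num) ht 0 (48 * K + 13 - 6 * t) (Or.inl ⟨rfl, Or.inr (Or.inr (Or.inl rfl))⟩)).1 (by omega)
  have q8 : ∀ t, t < K + 2 → d ≠ 48 * K + 19 + 6 * t := fun t ht hh =>
    (A 2 t (by norm_num) ht 0 (48 * K + 19 + 6 * t) (Or.inl ⟨rfl, Or.inr (Or.inr (Or.inr (Or.inl rfl)))⟩)).1 (by omega)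
  have r0 := q0 ((12 * K + 19 - d) / 12)
  have r1 := q1 ((12 * K + 13 - d) / 12)
  have r2 := q2 ((18 * K - 5 - d) / 6)
  have r3 := q3 ((d - (18 * K + 1)) / 12)
  have r4 := q4 ((d - (18 * K + 7)) / 12)
  have r5 := q5 ((d - (30 * K - 11)) / 6)
  have r6 := q6 ((d - (36 * K - 5)) / 6)
  have r7 := q7 ((48 * K + 13 - d) / 6)
  have r8 := q8 ((d - (48 * K + 19)) / 6)
  clear q0 q1 q2 q3 q4 q5 q6 q7 q8 A
  obtain ⟨x, hx⟩ : ∃ x, d = 6 * x + 1 := ⟨d / 6, by omega⟩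
  subst hx
  rcases Nat.even_or_odd' x with ⟨y, rfl | rfl⟩ <;>
  rcases Nat.even_or_odd' K with ⟨L, rfl | rfl⟩ <;> omega

lemma cover2 (K d : ℕ) (hK : 2 ≤ K) (hd0 : 0 < d) (hd : d ≤ 54 * K) (h6 : d % 6 = 2)
    (A : ∀ f t, f < 5 → t < K + 2 → ∀ u v, FanE (p1 f K t) (p2 f K t) (p3 f K t) (p4 f K t) (p5 f K t) u v →
      d ≠ v - u ∧ 108 * K - d ≠ v - u) : d = 48 * K + 20 := by
  have q0 : ∀ t, t < K + 2 → d ≠ 2 + 12 * t := fun t ht hh =>
    (A 0 t (by norm_num) ht (48 * K + 15 - 6 * t) (48 * K + 17 + 6 * t) (Or.inr (Or.inr (Or.inr (Or.inl ⟨rfl, rfl⟩))))).1 (by omega)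
  have q1 : ∀ t, t < K + 2 → d ≠ 8 + 12 * t := fun t ht hh =>
    (A 4 t (by norm_num) ht (48 * K + 13 - 6 * t) (48 * K + 21 + 6 * t) (Or.inr (Or.inr (Or.inr (Or.inl ⟨rfl, rfl⟩))))).1 (by omega)
  have q2 : ∀ t, t < K + 2 → d ≠ 18 * K - 4 - 6 * t := fun t ht hh =>
    (A 1 t (by norm_num) ht (18 * K + 7 + 12 * t) (36 * K + 3 + 6 * t) (Or.inr (Or.inl ⟨rfl, rfl⟩))).1 (by omega)
  have q3 : ∀ t, t < K + 2 → d ≠ 18 * K + 2 + 12 * t := fun t ht hh =>
    (A 2 t (by norm_num) ht (18 * K - 9 - 6 * t) (36 * K + 6 * t - 7) (Or.inr (Or.inl ⟨rfl, rfl⟩))).1 (by omega)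
  have q4 : ∀ t, t < K + 2 → d ≠ 30 * K - 16 - 12 * t := fun t ht hh =>
    (A 2 t (by norm_num) ht 0 (78 * K + 16 + 12 * t) (Or.inl ⟨rfl, Or.inr (Or.inr (Or.inr (Or.inr rfl)))⟩)).2 (by omega)
  have q5 : ∀ t, t < K + 2 → d ≠ 30 * K + 6 * t - 16 := fun t ht hh =>
    (A 0 t (by norm_num) ht 0 (78 * K + 16 - 6 * t) (Or.inl ⟨rfl, Or.inr (Or.inr (Or.inr (Or.inr rfl)))⟩)).2 (by omega)
  have q6 : ∀ t, t < K + 2 → d ≠ 36 * K + 6 * t - 4 := fun t ht hh =>
    (A 0 t (by norm_num) ht 0 (36 * K + 6 * t - 4) (Or.inl ⟨rfl, Or.inr (Or.inl rfl)⟩)).1 (by omega)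
  have q7 : ∀ t, t < K + 2 → d ≠ 48 * K + 14 - 6 * t := fun t ht hh =>
    (A 2 t (by norm_num) ht 0 (48 * K + 14 - 6 * t) (Or.inl ⟨rfl, Or.inr (Or.inr (Or.inl rfl))⟩)).1 (by omega)
  have q8 : ∀ t, t < K + 2 → d ≠ 48 * K + 26 + 6 * t := fun t ht hh =>
    (A 1 t (by norm_num) ht 0 (48 * K + 26 + 6 * t) (Or.inl ⟨rfl, Or.inr (Or.inr (Or.inr (Or.inl rfl)))⟩)).1 (by omega)
  have r0 := q0 ((d - (2)) / 12)
  have r1 := q1 ((d - (8)) / 12)
  have r2 := q2 ((18 * K - 4 - d) / 6)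
  have r3 := q3 ((d - (18 * K + 2)) / 12)
  have r4 := q4 ((30 * K - 16 - d) / 12)
  have r5 := q5 ((d - (30 * K - 16)) / 6)
  have r6 := q6 ((d - (36 * K - 4)) / 6)
  have r7 := q7 ((48 * K + 14 - d) / 6)
  have r8 := q8 ((d - (48 * K + 26)) / 6)
  clear q0 q1 q2 q3 q4 q5 q6 q7 q8 A
  obtain ⟨x, hx⟩ : ∃ x, d = 6 * x + 2 := ⟨d / 6, by omega⟩
  subst hx
  rcases Nat.even_or_odd' x with ⟨y, rfl | rfl⟩ <;>
  rcases Nat.even_or_odd' K with ⟨L, rfl | rfl⟩ <;> omega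

lemma cover3 (K d : ℕ) (hK : 2 ≤ K) (hd0 : 0 < d) (hd : d ≤ 54 * K) (h6 : d % 6 = 3)
    (A : ∀ f t, f < 5 → t < K + 2 → ∀ u v, FanE (p1 f K t) (p2 f K t) (p3 f K t) (p4 f K t) (p5 f K t) u v →
      d ≠ v - u ∧ 108 * K - d ≠ v - u) : d = 48 * K + 20 := by
  have q0 : ∀ t, t < K + 2 → d ≠ 12 * K + 21 - 12 * t := fun t ht hh =>
    (A 2 t (by norm_num) ht (36 * K + 6 * t - 7) (48 * K + 14 - 6 * t) (Or.inr (Or.inr (Or.inl ⟨rfl, rfl⟩)))).1 (by omega)
  have q1 : ∀ t, t < K + 2 → d ≠ 12 * K + 15 - 12 * t := fun t ht hh =>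
    (A 4 t (by norm_num) ht (36 * K + 6 * t - 2) (48 * K + 13 - 6 * t) (Or.inr (Or.inr (Or.inl ⟨rfl, rfl⟩)))).1 (by omega)
  have q2 : ∀ t, t < K + 2 → d ≠ 18 * K - 9 - 6 * t := fun t ht hh =>
    (A 2 t (by norm_num) ht 0 (18 * K - 9 - 6 * t) (Or.inl ⟨rfl, Or.inl rfl⟩)).1 (by omega)
  have q3 : ∀ t, t < K + 2 → d ≠ 18 * K + 3 + 12 * t := fun t ht hh =>
    (A 3 t (by norm_num) ht 0 (18 * K + 3 + 12 * t) (Or.inl ⟨rfl, Or.inl rfl⟩)).1 (by omega)
  have q4 : ∀ t, t < K + 2 → d ≠ 30 * K - 15 - 12 * t := fun t ht hh =>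
    (A 1 t (by norm_num) ht (48 * K + 26 + 6 * t) (78 * K + 11 - 6 * t) (Or.inr (Or.inr (Or.inr (Or.inr ⟨rfl, rfl⟩))))).1 (by omega)
  have q5 : ∀ t, t < K + 2 → d ≠ 30 * K + 6 * t - 3 := fun t ht hh =>
    (A 2 t (by norm_num) ht (48 * K + 19 + 6 * t) (78 * K + 16 + 12 * t) (Or.inr (Or.inr (Or.inr (Or.inr ⟨rfl, rfl⟩))))).1 (by omega)
  have q6 : ∀ t, t < K + 2 → d ≠ 36 * K + 3 + 6 * t := fun t ht hh =>
    (A 1 t (by norm_num) ht 0 (36 * K + 3 + 6 * t) (Or.inl ⟨rfl, Or.inr (Or.inl rfl)⟩)).1 (by omega)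
  have q7 : ∀ t, t < K + 2 → d ≠ 48 * K + 15 - 6 * t := fun t ht hh =>
    (A 0 t (by norm_num) ht 0 (48 * K + 15 - 6 * t) (Or.inl ⟨rfl, Or.inr (Or.inr (Or.inl rfl))⟩)).1 (by omega)
  have q8 : ∀ t, t < K + 2 → d ≠ 48 * K + 21 + 6 * t := fun t ht hh =>
    (A 4 t (by norm_num) ht 0 (48 * K + 21 + 6 * t) (Or.inl ⟨rfl, Or.inr (Or.inr (Or.inr (Or.inl rfl)))⟩)).1 (by omega)
  have r0 := q0 ((12 * K + 21 - d) / 12)
  have r1 := q1 ((12 * K + 15 - d) / 12)
  have r2 := q2 ((18 * K - 9 - d) / 6)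
  have r3 := q3 ((d - (18 * K + 3)) / 12)
  have r4 := q4 ((30 * K - 15 - d) / 12)
  have r5 := q5 ((d - (30 * K - 3)) / 6)
  have r6 := q6 ((d - (36 * K + 3)) / 6)
  have r7 := q7 ((48 * K + 15 - d) / 6)
  have r8 := q8 ((d - (48 * K + 21)) / 6)
  clear q0 q1 q2 q3 q4 q5 q6 q7 q8 A
  obtain ⟨x, hx⟩ : ∃ x, d = 6 * x + 3 := ⟨d / 6, by omega⟩
  subst hx
  rcases Nat.even_or_odd' x with ⟨y, rfl | rfl⟩ <;>
  rcases Nat.even_or_odd' K with ⟨L, rfl | rfl⟩ <;> omega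

lemma cover4 (K d : ℕ) (hK : 2 ≤ K) (hd0 : 0 < d) (hd : d ≤ 54 * K) (h6 : d % 6 = 4)
    (A : ∀ f t, f < 5 → t < K + 2 → ∀ u v, FanE (p1 f K t) (p2 f K t) (p3 f K t) (p4 f K t) (p5 f K t) u v →
      d ≠ v - u ∧ 108 * K - d ≠ v - u) : d = 48 * K + 20 := by
  have q0 : ∀ t, t < K + 2 → d ≠ 10 + 12 * t := fun t ht hh =>
    (A 1 t (by norm_num) ht (48 * K + 16 - 6 * t) (48 * K + 26 + 6 * t) (Or.inr (Or.inr (Or.inr (Or.inl ⟨rfl, rfl⟩))))).1 (by omega)
  have q1 : ∀ t, t < K + 2 → d ≠ 12 * K + 16 - 12 * t := fun t ht hh =>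
    (A 3 t (by norm_num) ht (36 * K + 6 * t - 5) (48 * K + 11 - 6 * t) (Or.inr (Or.inr (Or.inl ⟨rfl, rfl⟩)))).1 (by omega)
  have q2 : ∀ t, t < K + 2 → d ≠ 18 * K - 8 - 6 * t := fun t ht hh =>
    (A 3 t (by norm_num) ht (18 * K + 3 + 12 * t) (36 * K + 6 * t - 5) (Or.inr (Or.inl ⟨rfl, rfl⟩))).1 (by omega)
  have q3 : ∀ t, t < K + 2 → d ≠ 30 * K - 8 - 12 * t := fun t ht hh =>
    (A 3 t (by norm_num) ht (48 * K + 22 + 6 * t) (78 * K + 14 - 6 * t) (Or.inr (Or.inr (Or.inr (Or.inr ⟨rfl, rfl⟩))))).1 (by omega)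
  have q4 : ∀ t, t < K + 2 → d ≠ 30 * K - 14 - 12 * t := fun t ht hh =>
    (A 4 t (by norm_num) ht 0 (78 * K + 14 + 12 * t) (Or.inl ⟨rfl, Or.inr (Or.inr (Or.inr (Or.inr rfl)))⟩)).2 (by omega)
  have q5 : ∀ t, t < K + 2 → d ≠ 30 * K + 6 * t - 14 := fun t ht hh =>
    (A 3 t (by norm_num) ht 0 (78 * K + 14 - 6 * t) (Or.inl ⟨rfl, Or.inr (Or.inr (Or.inr (Or.inr rfl)))⟩)).2 (by omega)
  have q6 : ∀ t, t < K + 2 → d ≠ 36 * K + 6 * t - 2 := fun t ht hh =>
    (A 4 t (by norm_num) ht 0 (36 * K + 6 * t - 2) (Or.inl ⟨rfl, Or.inr (Or.inl rfl)⟩)).1 (by omega)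
  have q7 : ∀ t, t < K + 2 → d ≠ 48 * K + 16 - 6 * t := fun t ht hh =>
    (A 1 t (by norm_num) ht 0 (48 * K + 16 - 6 * t) (Or.inl ⟨rfl, Or.inr (Or.inr (Or.inl rfl))⟩)).1 (by omega)
  have q8 : ∀ t, t < K + 2 → d ≠ 48 * K + 22 + 6 * t := fun t ht hh =>
    (A 3 t (by norm_num) ht 0 (48 * K + 22 + 6 * t) (Or.inl ⟨rfl, Or.inr (Or.inr (Or.inr (Or.inl rfl)))⟩)).1 (by omega)
  have r0 := q0 ((d - (10)) / 12)
  have r1 := q1 ((12 * K + 16 - d) / 12)
  have r2 := q2 ((18 * K - 8 - d) / 6)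
  have r3 := q3 ((30 * K - 8 - d) / 12)
  have r4 := q4 ((30 * K - 14 - d) / 12)
  have r5 := q5 ((d - (30 * K - 14)) / 6)
  have r6 := q6 ((d - (36 * K - 2)) / 6)
  have r7 := q7 ((48 * K + 16 - d) / 6)
  have r8 := q8 ((d - (48 * K + 22)) / 6)
  clear q0 q1 q2 q3 q4 q5 q6 q7 q8 A
  obtain ⟨x, hx⟩ : ∃ x, d = 6 * x + 4 := ⟨d / 6, by omega⟩
  subst hx
  rcases Nat.even_or_odd' x with ⟨y, rfl | rfl⟩ <;>
  rcases Nat.even_or_odd' K with ⟨L, rfl | rfl⟩ <;> omega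

lemma cover5 (K d : ℕ) (hK : 2 ≤ K) (hd0 : 0 < d) (hd : d ≤ 54 * K) (h6 : d % 6 = 5)
    (A : ∀ f t, f < 5 → t < K + 2 → ∀ u v, FanE (p1 f K t) (p2 f K t) (p3 f K t) (p4 f K t) (p5 f K t) u v →
      d ≠ v - u ∧ 108 * K - d ≠ v - u) : d = 48 * K + 20 := by
  have q0 : ∀ t, t < K + 2 → d ≠ 5 + 12 * t := fun t ht hh =>
    (A 2 t (by norm_num) ht (48 * K + 14 - 6 * t) (48 * K + 19 + 6 * t) (Or.inr (Or.inr (Or.inr (Or.inl ⟨rfl, rfl⟩))))).1 (by omega)
  have q1 : ∀ t, t < K + 2 → d ≠ 11 + 12 * t := fun t ht hh =>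
    (A 3 t (by norm_num) ht (48 * K + 11 - 6 * t) (48 * K + 22 + 6 * t) (Or.inr (Or.inr (Or.inr (Or.inl ⟨rfl, rfl⟩))))).1 (by omega)
  have q2 : ∀ t, t < K + 2 → d ≠ 18 * K - 7 - 6 * t := fun t ht hh =>
    (A 4 t (by norm_num) ht (18 * K + 5 + 12 * t) (36 * K + 6 * t - 2) (Or.inr (Or.inl ⟨rfl, rfl⟩))).1 (by omega)
  have q3 : ∀ t, t < K + 2 → d ≠ 18 * K + 5 + 12 * t := fun t ht hh =>
    (A 4 t (by norm_num) ht 0 (18 * K + 5 + 12 * t) (Or.inl ⟨rfl, Or.inl rfl⟩)).1 (by omega)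
  have q4 : ∀ t, t < K + 2 → d ≠ 30 * K - 1 - 12 * t := fun t ht hh =>
    (A 0 t (by norm_num) ht (48 * K + 17 + 6 * t) (78 * K + 16 - 6 * t) (Or.inr (Or.inr (Or.inr (Or.inr ⟨rfl, rfl⟩))))).1 (by omega)
  have q5 : ∀ t, t < K + 2 → d ≠ 30 * K + 6 * t - 7 := fun t ht hh =>
    (A 4 t (by norm_num) ht (48 * K + 21 + 6 * t) (78 * K + 14 + 12 * t) (Or.inr (Or.inr (Or.inr (Or.inr ⟨rfl, rfl⟩))))).1 (by omega)
  have q6 : ∀ t, t < K + 2 → d ≠ 36 * K + 6 * t - 7 := fun t ht hh =>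
    (A 2 t (by norm_num) ht 0 (36 * K + 6 * t - 7) (Or.inl ⟨rfl, Or.inr (Or.inl rfl)⟩)).1 (by omega)
  have q7 : ∀ t, t < K + 2 → d ≠ 48 * K + 11 - 6 * t := fun t ht hh =>
    (A 3 t (by norm_num) ht 0 (48 * K + 11 - 6 * t) (Or.inl ⟨rfl, Or.inr (Or.inr (Or.inl rfl))⟩)).1 (by omega)
  have q8 : ∀ t, t < K + 2 → d ≠ 48 * K + 17 + 6 * t := fun t ht hh =>
    (A 0 t (by norm_num) ht 0 (48 * K + 17 + 6 * t) (Or.inl ⟨rfl, Or.inr (Or.inr (Or.inr (Or.inl rfl)))⟩)).1 (by omega)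
  have r0 := q0 ((d - (5)) / 12)
  have r1 := q1 ((d - (11)) / 12)
  have r2 := q2 ((18 * K - 7 - d) / 6)
  have r3 := q3 ((d - (18 * K + 5)) / 12)
  have r4 := q4 ((30 * K - 1 - d) / 12)
  have r5 := q5 ((d - (30 * K - 7)) / 6)
  have r6 := q6 ((d - (36 * K - 7)) / 6)
  have r7 := q7 ((48 * K + 11 - d) / 6)
  have r8 := q8 ((d - (48 * K + 17)) / 6)
  clear q0 q1 q2 q3 q4 q5 q6 q7 q8 A
  obtain ⟨x, hx⟩ : ∃ x, d = 6 * x + 5 := ⟨d / 6, by omega⟩
  subst hx
  rcases Nat.even_or_odd' x with ⟨y, rfl | rfl⟩ <;>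
  rcases Nat.even_or_odd' K with ⟨L, rfl | rfl⟩ <;> omega


lemma good_fam (f K t : ℕ) (hf : f < 6) (hK : 2 ≤ K) (ht : t < K + 2) :
    Good (6 * (18 * K)) (p1 f K t) (p2 f K t) (p3 f K t) (p4 f K t) (p5 f K t) := by
  unfold Good
  interval_cases f <;> simp only [p1, p2, p3, p4, p5] <;> omega

/-- indices of the fans -/
abbrev Idx (K : ℕ) : Type := (Fin 5 × Fin (K + 2)) ⊕ Unit

/-- family number of a fan -/
def fOf {K : ℕ} : Idx K → ℕ
  | Sum.inl a => a.1.val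
  | Sum.inr _ => 5

/-- parameter of a fan -/
def tOf {K : ℕ} : Idx K → ℕ
  | Sum.inl a => a.2.val
  | Sum.inr _ => 0

lemma fOf_lt {K : ℕ} (a : Idx K) : fOf a < 6 := by
  rcases a with ⟨f, t⟩ | u
  · have := f.2
    simp only [fOf]; omega
  · simp [fOf]

lemma tOf_lt {K : ℕ} (a : Idx K) : tOf a < K + 2 := by
  rcases a with ⟨f, t⟩ | u
  · exact t.2
  · simp [tOf]

lemma cover_diff (K d : ℕ) (hK : 2 ≤ K) (hd0 : 0 < d) (hd : d ≤ 54 * K) (h6 : d % 6 ≠ 0) :
    ∃ a : Idx K, ∃ u v, FanE (p1 (fOf a) K (tOf a)) (p2 (fOf a) K (tOf a)) (p3 (fOf a) K (tOf a))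
      (p4 (fOf a) K (tOf a)) (p5 (fOf a) K (tOf a)) u v ∧ (d = v - u ∨ 108 * K - d = v - u) := by
  by_contra hcon
  push Not at hcon
  have A : ∀ f t, f < 5 → t < K + 2 → ∀ u v,
      FanE (p1 f K t) (p2 f K t) (p3 f K t) (p4 f K t) (p5 f K t) u v →
      d ≠ v - u ∧ 108 * K - d ≠ v - u := by
    intro f t hf ht u v he
    exact hcon (Sum.inl (⟨f, hf⟩, ⟨t, ht⟩)) u v he
  have hne : d ≠ 48 * K + 20 := by
    intro h
    have := (hcon (Sum.inr ()) 0 (48 * K + 20)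
      (Or.inl ⟨rfl, Or.inr (Or.inr (Or.inr (Or.inr rfl)))⟩)).1
    omega
  have hr : d % 6 = 1 ∨ d % 6 = 2 ∨ d % 6 = 3 ∨ d % 6 = 4 ∨ d % 6 = 5 := by omega
  rcases hr with h | h | h | h | h
  · exact hne (cover1 K d hK hd0 hd h A)
  · exact hne (cover2 K d hK hd0 hd h A)
  · exact hne (cover3 K d hK hd0 hd h A)
  · exact hne (cover4 K d hK hd0 hd h A)
  · exact hne (cover5 K d hK hd0 hd h A)

lemma cov_step (K k : ℕ) (hK : 2 ≤ K) (h : Cov (18 * K) k) : Cov (108 * K) (30 * K + 66 + k) := by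
  obtain ⟨U', hU1, hU2⟩ := h
  have hcard : Fintype.card ((Idx K × Fin 6) ⊕ Fin k) = 30 * K + 66 + k := by
    simp only [Fintype.card_sum, Fintype.card_prod, Fintype.card_fin, Fintype.card_unit]
    ring
  rw [← hcard]
  have hN : 108 * K = 6 * (18 * K) := by ring
  rw [hN]
  let U : (Idx K × Fin 6) ⊕ Fin k → ℕ → ℕ → Prop := Sum.elim
    (fun q => FanPage (6 * (18 * K)) (p1 (fOf q.1) K (tOf q.1)) (p2 (fOf q.1) K (tOf q.1))
      (p3 (fOf q.1) K (tOf q.1)) (p4 (fOf q.1) K (tOf q.1)) (p5 (fOf q.1) K (tOf q.1)) q.2.val)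
    (fun i x y => x % 6 = y % 6 ∧ U' i (x / 6) (y / 6))
  apply cov_of_fintype U
  · rintro (⟨a, s⟩ | i)
    · exact fanPage_up (good_fam _ _ _ (fOf_lt a) hK (tOf_lt a))
    · exact mult_up (hU1 i)
  · intro x y hxy hy
    by_cases hmod : x % 6 = y % 6
    · obtain ⟨i, hi⟩ := hU2 (x / 6) (y / 6) (by omega) (by omega)
      exact ⟨Sum.inr i, hmod, hi⟩
    · have key : ∃ a : Idx K, ∃ u v, FanE (p1 (fOf a) K (tOf a)) (p2 (fOf a) K (tOf a))
          (p3 (fOf a) K (tOf a)) (p4 (fOf a) K (tOf a)) (p5 (fOf a) K (tOf a)) u v ∧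
          (y - x = v - u ∨ 6 * (18 * K) - (y - x) = v - u) := by
        by_cases hhalf : y - x ≤ 54 * K
        · obtain ⟨a, u, v, he, hd⟩ := cover_diff K (y - x) hK (by omega) hhalf (by omega)
          exact ⟨a, u, v, he, by omega⟩
        · obtain ⟨a, u, v, he, hd⟩ := cover_diff K (6 * (18 * K) - (y - x)) hK (by omega)
            (by omega) (by omega)
          exact ⟨a, u, v, he, by omega⟩
      obtain ⟨a, u, v, he, hd⟩ := key
      obtain ⟨s, hs, hp⟩ := fanPage_cover (good_fam _ _ _ (fOf_lt a) hK (tOf_lt a)) he hxy hy hd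
      exact ⟨Sum.inl (a, ⟨s, hs⟩), hp⟩

lemma cov_bound (n : ℕ) : ∃ k, Cov n k ∧ 3 * k ≤ n + 305 * Nat.log 2 n + 216 := by
  induction n using Nat.strong_induction_on with
  | _ n ih =>
    by_cases hn : n < 109
    · exact ⟨n, cov_self n, by omega⟩
    · obtain ⟨k, hk, hb⟩ := ih (18 * ((n + 107) / 108)) (by omega)
      refine ⟨30 * ((n + 107) / 108) + 66 + k,
        cov_mono (cov_step _ _ (by omega) hk) (by omega), ?_⟩
      have h1 : Nat.log 2 (18 * ((n + 107) / 108)) ≤ Nat.log 2 (n / 2) :=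
        Nat.log_mono_right (by omega)
      rw [Nat.log_div_base] at h1
      have h2 : 1 ≤ Nat.log 2 n := Nat.log_pos (by norm_num) (by omega)
      omega

lemma embed_of_cov {n k : ℕ} (h : Cov n k) : HasUnionEmbedding (⊤ : SimpleGraph (Fin n)) k := by
  classical
  obtain ⟨U, hU1, hU2⟩ := h
  -- the natural order
  let σ : Fin n ≃ Fin (Fintype.card (Fin n)) := finCongr (Fintype.card_fin n).symm
  have hσ : ∀ a b : Fin n, σ a < σ b ↔ a.val < b.val := by
    intro a b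
    rw [Fin.lt_def]
    rfl
  let W : Fin k → Set (Sym2 (Fin n)) := fun i =>
    {e | ∃ x y : Fin n, x.val < y.val ∧ e = s(x, y) ∧ U i x.val y.val ∧
      ∀ j < i, ¬ U j x.val y.val}
  have hord : ∀ {x y a b : Fin n}, x.val < y.val → a.val < b.val → s(x, y) = s(a, b) →
      x = a ∧ y = b := by
    intro x y a b h1 h2 h3
    rw [Sym2.eq_iff] at h3
    rcases h3 with h3 | ⟨h3, h4⟩
    · exact h3
    · subst h3; subst h4; omega
  refine ⟨σ, W, ?_, ?_, ?_⟩
  · ext e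
    rw [Set.mem_iUnion]
    constructor
    · rintro ⟨i, x, y, hxy, rfl, -, -⟩
      rw [SimpleGraph.mem_edgeSet]
      intro h
      rw [h] at hxy
      exact lt_irrefl _ hxy
    · have main : ∀ a b : Fin n, a.val < b.val → ∃ i, s(a, b) ∈ W i := by
        intro a b hab
        obtain ⟨i, hi⟩ := hU2 a.val b.val hab b.2
        have hne : (Finset.univ.filter (fun i => U i a.val b.val)).Nonempty :=
          ⟨i, Finset.mem_filter.2 ⟨Finset.mem_univ _, hi⟩⟩
        refine ⟨(Finset.univ.filter (fun i => U i a.val b.val)).min' hne, a, b, hab, rfl, ?_, ?_⟩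
        · exact (Finset.mem_filter.1 (Finset.min'_mem _ hne)).2
        · intro j hj hUj
          have := Finset.min'_le (Finset.univ.filter (fun i => U i a.val b.val)) j
            (Finset.mem_filter.2 ⟨Finset.mem_univ _, hUj⟩)
          exact absurd hj (not_lt.2 this)
      induction e with
      | _ a b =>
        intro he
        rw [SimpleGraph.mem_edgeSet] at he
        have hne : a.val ≠ b.val := fun h => he (Fin.ext h)
        rcases lt_or_gt_of_ne hne with h | h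
        · exact main a b h
        · rw [Sym2.eq_swap]; exact main b a h
  · intro i j hij
    rw [Set.disjoint_left]
    rintro e ⟨x, y, hxy, rfl, h1, h2⟩ ⟨x', y', hxy', he, h1', h2'⟩
    obtain ⟨rfl, rfl⟩ := hord hxy hxy' he
    rcases lt_or_gt_of_ne hij with h | h
    · exact h2' i h h1
    · exact h2 j h h1'
  · intro i
    obtain ⟨comp, hc1, hc2⟩ := hU1 i
    let m : ℕ := (Finset.range n).sup comp + 1
    have hm : ∀ v : Fin n, comp v.val < m := by
      intro v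
      have : comp v.val ≤ (Finset.range n).sup comp :=
        Finset.le_sup (f := comp) (Finset.mem_range.2 v.2)
      omega
    refine ⟨m, fun c => {e | e ∈ W i ∧ ∀ v ∈ e, comp v.val = c.val}, ?_, ?_, ?_, ?_⟩
    · ext e
      rw [Set.mem_iUnion]
      constructor
      · rintro ⟨c, hc, -⟩; exact hc
      · rintro he
        obtain ⟨x, y, hxy, rfl, h1, h2⟩ := he
        refine ⟨⟨comp x.val, hm x⟩, ⟨x, y, hxy, rfl, h1, h2⟩, ?_⟩
        intro v hv
        rw [Sym2.mem_iff] at hv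
        rcases hv with rfl | rfl
        · rfl
        · exact (hc1 x.val _ hxy (Fin.is_lt _) h1).symm
    · intro c c' hcc
      rw [Set.disjoint_left]
      rintro e ⟨⟨x, y, hxy, rfl, h1, h2⟩, h3⟩ ⟨-, h4⟩
      apply hcc
      apply Fin.ext
      rw [← h3 x (Sym2.mem_mk_left _ _), ← h4 x (Sym2.mem_mk_left _ _)]
    · intro c e he f hf hcross
      obtain ⟨a, b, u, v, rfl, rfl, hab, huv, hor⟩ := hcross
      rw [hσ] at hab huv
      simp only [hσ] at hor
      obtain ⟨⟨x, y, hxy, hxe, h1, -⟩, hcomp⟩ := he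
      obtain ⟨⟨x', y', hxy', hxe', h1', -⟩, hcomp'⟩ := hf
      obtain ⟨rfl, rfl⟩ := hord hab hxy hxe
      obtain ⟨rfl, rfl⟩ := hord huv hxy' hxe'
      have h5 := hcomp a (Sym2.mem_mk_left _ _)
      have h6 := hcomp' u (Sym2.mem_mk_left _ _)
      rcases hor with hor | hor
      · exact hc2 _ _ _ _ hab (Fin.is_lt _) huv (Fin.is_lt _) h1 h1' (by rw [h5, h6]) hor
      · exact hc2 _ _ _ _ huv (Fin.is_lt _) hab (Fin.is_lt _) h1' h1 (by rw [h5, h6]) hor
    · rintro v c c' ⟨e, ⟨-, h1⟩, hve⟩ ⟨e', ⟨-, h1'⟩, hve'⟩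
      apply Fin.ext
      rw [← h1 v hve, ← h1' v hve']

/-- lower bound for the union page number -/
lemma lower_pn (n : ℕ) :
    n ^ 3 ≤ 3 * (unionPageNumber (⊤ : SimpleGraph (Fin n)) * (n * n)) + n := by
  obtain ⟨k, hk, -⟩ := cov_bound n
  have hne : {k | HasUnionEmbedding (⊤ : SimpleGraph (Fin n)) k}.Nonempty := ⟨k, embed_of_cov hk⟩
  exact lower (Nat.sInf_mem hne)

/-- upper bound for the union page number -/
lemma upper_pn (n : ℕ) :
    3 * unionPageNumber (⊤ : SimpleGraph (Fin n)) ≤ n + 305 * Nat.log 2 n + 216 := by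
  obtain ⟨k, hk, hb⟩ := cov_bound n
  have : unionPageNumber (⊤ : SimpleGraph (Fin n)) ≤ k := Nat.sInf_le (embed_of_cov hk)
  omega

lemma log_le (n : ℕ) (hn : 2 ≤ n) : (Nat.log 2 n : ℝ) ≤ 2 * Real.log n := by
  have h1 : (2 : ℝ) ^ (Nat.log 2 n) ≤ n := by
    exact_mod_cast Nat.pow_log_le_self 2 (by omega)
  have h2 : Real.log ((2 : ℝ) ^ (Nat.log 2 n)) ≤ Real.log n :=
    Real.log_le_log (by positivity) h1
  rw [Real.log_pow] at h2
  have h3 := Real.log_two_gt_d9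
  have h4 : (0 : ℝ) ≤ (Nat.log 2 n : ℝ) := by positivity
  nlinarith

lemma bounds (n : ℕ) (hn : 2 ≤ n) :
    (n : ℝ) / 3 - 1 / (3 * n) ≤ (unionPageNumber (⊤ : SimpleGraph (Fin n)) : ℝ) ∧
      (unionPageNumber (⊤ : SimpleGraph (Fin n)) : ℝ) ≤ (n : ℝ) / 3 + 400 * Real.log n := by
  have hnR : (2 : ℝ) ≤ (n : ℝ) := by exact_mod_cast hn
  constructor
  · have h1 : ((n : ℝ)) ^ 3 ≤
        3 * ((unionPageNumber (⊤ : SimpleGraph (Fin n)) : ℝ) * (n * n)) + n := by
      exact_mod_cast lower_pn n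
    set p := (unionPageNumber (⊤ : SimpleGraph (Fin n)) : ℝ)
    have h2 : (n : ℝ) / 3 - 1 / (3 * n) = ((n : ℝ) ^ 3 - n) / (3 * (n * n)) := by
      field_simp
    rw [h2, div_le_iff₀ (by positivity)]
    nlinarith
  · have h1 : 3 * (unionPageNumber (⊤ : SimpleGraph (Fin n)) : ℝ) ≤
        n + 305 * (Nat.log 2 n : ℝ) + 216 := by
      exact_mod_cast upper_pn n
    have h2 := log_le n hn
    have h3 : Real.log 2 ≤ Real.log n := Real.log_le_log (by norm_num) hnR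
    have h4 := Real.log_two_gt_d9
    nlinarith

/-- **Theorem.** For every `n ≥ 2`,
`n/3 - 1/(3n) ≤ pn_u(K_n) ≤ n/3 + 400 log n`; hence `pn_u(K_n)/n → 1/3`. -/
theorem result :
    (∀ n : ℕ, 2 ≤ n →
      (n : ℝ) / 3 - 1 / (3 * n) ≤ (unionPageNumber (⊤ : SimpleGraph (Fin n)) : ℝ) ∧
      (unionPageNumber (⊤ : SimpleGraph (Fin n)) : ℝ) ≤ (n : ℝ) / 3 + 400 * Real.log n) ∧
    Tendsto (fun n : ℕ => (unionPageNumber (⊤ : SimpleGraph (Fin n)) : ℝ) / n) atTop
      (𝓝 (1 / 3)) := by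
  refine ⟨bounds, ?_⟩
  have hlog : Tendsto (fun n : ℕ => Real.log (n : ℝ) / (n : ℝ)) atTop (𝓝 0) := by
    have h := Real.isLittleO_log_id_atTop.tendsto_div_nhds_zero
    exact h.comp tendsto_natCast_atTop_atTop
  have hinv : Tendsto (fun n : ℕ => (1 : ℝ) / (n : ℝ)) atTop (𝓝 0) :=
    tendsto_one_div_atTop_nhds_zero_nat
  have hlow : Tendsto (fun n : ℕ => (1 : ℝ) / 3 - 1 / 3 * ((1 : ℝ) / n * (1 / n))) atTop
      (𝓝 (1 / 3)) := by
    have := (hinv.mul hinv).const_mul (1 / 3 : ℝ)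
    have h2 := this.const_sub (1 / 3 : ℝ)
    simpa using h2
  have hup : Tendsto (fun n : ℕ => (1 : ℝ) / 3 + 400 * (Real.log (n : ℝ) / n)) atTop
      (𝓝 (1 / 3)) := by
    have := hlog.const_mul (400 : ℝ)
    have h2 := this.const_add (1 / 3 : ℝ)
    simpa using h2
  refine tendsto_of_tendsto_of_tendsto_of_le_of_le' hlow hup ?_ ?_
  · filter_upwards [eventually_ge_atTop 2] with n hn
    have h := (bounds n hn).1
    have hnR : (0 : ℝ) < (n : ℝ) := by
      have : (2 : ℝ) ≤ (n : ℝ) := by exact_mod_cast hn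
      linarith
    rw [le_div_iff₀ hnR]
    have h2 : (1 / 3 - 1 / 3 * ((1 : ℝ) / n * (1 / n))) * n = (n : ℝ) / 3 - 1 / (3 * n) := by
      field_simp
    rw [h2]; exact h
  · filter_upwards [eventually_ge_atTop 2] with n hn
    have h := (bounds n hn).2
    have hnR : (0 : ℝ) < (n : ℝ) := by
      have : (2 : ℝ) ≤ (n : ℝ) := by exact_mod_cast hn
      linarith
    rw [div_le_iff₀ hnR]
    have h2 : (1 / 3 + 400 * (Real.log (n : ℝ) / n)) * n = (n : ℝ) / 3 + 400 * Real.log n := by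
      field_simp
    rw [h2]; exact h

end Pool.Agent.Results.MP_556f19_co.UnionPageLimit
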